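import Pool.Agent.helper3.T6R.Spec

set_option autoImplicit false

/-!
# Row t6r:RTD of MP_16912e_nt: TDR from WGR (copy of TD1 and TDF of project T6)
-/

namespace Pool.Agent.T6R

open Finset NumberField Pool.Agent.helper3.FT Pool.Agent.helper47.RA Pool.Agent.T5 Pool.Agent.T6
open scoped nonZeroDivisors

theorem RTD_gg (C : ℝ) (p a : ℕ) : gg (48 * C) p a = 4 * gg (12 * C) p a := by
  unfold gg
  ring

theorem RTD_gg0 (C : ℝ) (hC : 0 ≤ C) (p a : ℕ) : 0 ≤ gg C p a := by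
  unfold gg
  positivity

theorem RTD_card (LA LA' : ℕ → ℕ × ℕ → Finset Cls) (LB : ℕ → ℕ → ℕ × ℕ → Finset Cls)
    (hOK : LocOK LA LA' LB) (d : ℕ) (Sr Sy : Finset ℕ) (p : ℕ) (q : ℕ × ℕ) :
    (T6.Lp LA LA' LB d Sr Sy p q).card ≤ mc d Sr Sy p := by
  unfold T6.Lp mc
  split_ifs
  · exact hOK.cA p q
  · exact hOK.cB p _ q
  · exact hOK.cA' p q

theorem RTD_mm (d : ℕ) (Sr Sy : Finset ℕ) (p : ℕ) (hp : p.Prime) :
    1 ≤ mr Sr p ∧ 1 ≤ ms d Sr Sy p ∧ ∃ j, mr Sr p * ms d Sr Sy p ∣ p ^ j := by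
  have hp1 := hp.one_lt.le
  unfold mr ms
  split_ifs
  · exact ⟨hp1, le_rfl, 1, by rw [mul_one, pow_one]⟩
  · exact ⟨le_rfl, Nat.one_le_pow _ _ hp.pos, d.factorization p, by rw [one_mul]⟩
  · exact ⟨le_rfl, hp1, 1, by rw [one_mul, pow_one]⟩

theorem RTD_br (A N YY d E S : ℝ) (hA : 1 ≤ A) (hN : 1 ≤ N) (hY : 0 ≤ YY) (hYA : YY ≤ A * N)
    (hE : 1 ≤ E) (hS : 1 ≤ S) (hd : E * S ≤ d) :
    1 / (E ^ 4 * S ^ 3) + (YY / (N * d ^ 2)) ^ (3 / 2 : ℝ) / (E * S ^ (1 / 4 : ℝ)) ≤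
      (1 + A ^ (3 / 2 : ℝ)) / (E ^ 4 * S ^ 3) := by
  have hE0 : 0 < E := by linarith
  have hS0 : 0 < S := by linarith
  have hES : 0 < E * S := by positivity
  have hd0 : 0 < d := by linarith
  have hN0 : 0 < N := by linarith
  rw [add_div]
  refine add_le_add le_rfl ?_
  have h1 : YY / (N * d ^ 2) ≤ A / d ^ 2 := by
    rw [div_le_div_iff₀ (by positivity) (by positivity)]
    nlinarith [mul_le_mul_of_nonneg_right hYA (sq_nonneg d)]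
  have h2 : (YY / (N * d ^ 2)) ^ (3 / 2 : ℝ) ≤ (A / d ^ 2) ^ (3 / 2 : ℝ) :=
    Real.rpow_le_rpow (by positivity) h1 (by norm_num)
  have h3 : (A / d ^ 2) ^ (3 / 2 : ℝ) = A ^ (3 / 2 : ℝ) / d ^ 3 := by
    rw [Real.div_rpow (by linarith) (by positivity)]
    congr 1
    rw [← Real.rpow_natCast d 2, ← Real.rpow_mul hd0.le]
    norm_num
  have hA0 : 0 ≤ A ^ (3 / 2 : ℝ) := Real.rpow_nonneg (by linarith) _
  have h4 : A ^ (3 / 2 : ℝ) / d ^ 3 ≤ A ^ (3 / 2 : ℝ) / (E * S) ^ 3 :=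
    div_le_div_of_nonneg_left hA0 (by positivity) (pow_le_pow_left₀ hES.le hd 3)
  have hS4 : 1 ≤ S ^ (1 / 4 : ℝ) := Real.one_le_rpow hS (by norm_num)
  have h5 : E ≤ E * S ^ (1 / 4 : ℝ) := by nlinarith
  calc (YY / (N * d ^ 2)) ^ (3 / 2 : ℝ) / (E * S ^ (1 / 4 : ℝ))
      ≤ (A ^ (3 / 2 : ℝ) / (E * S) ^ 3) / E :=
        div_le_div₀ (by positivity) (h2.trans (h3.le.trans h4)) hE0 h5
    _ = A ^ (3 / 2 : ℝ) / (E ^ 4 * S ^ 3) := by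
        rw [div_div]
        congr 1
        ring

/-- the bound for one `d` -/
def RTD_One : Prop :=
  ∃ η : ℝ, 0 < η ∧ ∀ κ A : ℝ, 0 < κ → 1 ≤ A → ∃ C K N₀ : ℝ, 1 ≤ C ∧ 1 ≤ K ∧ ∀ N Y Y₂ : ℝ, N₀ ≤ N →
    Y ≤ Y₂ → Y₂ ≤ N ^ η * Y → Y * Y₂ ≤ A * N → N ^ (1 - η) ≤ Y * Y₂ →
    ∀ d : ℕ, 1 ≤ d → (d : ℝ) ≤ N ^ η → ∀ F : Finset Tpl,
      (∀ t ∈ F, Bx κ (N * (d : ℝ) ^ 2) Y Y₂ t ∧ (d : ℤ) ^ 2 ∣ dis t) →
      (F.card : ℝ) ≤ C * (Y * Y₂) * ∏ p ∈ d.primeFactors, gg K p (d.factorization p)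

theorem RTD_one (hTGM : TGM_stmt) (hTCH : TCH_stmt) (hTSP : TSP_stmt) (hTNA : TNA_stmt) (hTNB : TNB_stmt)
    (hWG : WGR_stmt) (hLA : LOCA_stmt) (hLB : LOCB_stmt) : RTD_One := by
  classical
  obtain ⟨LA, LA', LB, hOK⟩ := hTCH hLA hLB
  obtain ⟨η, hη, hW⟩ := hWG
  refine ⟨η, hη, fun κ A hκ hA => ?_⟩
  obtain ⟨C, N₀, hC, hW⟩ := hW κ A hκ hA
  have hA0 : 0 ≤ A ^ (3 / 2 : ℝ) := Real.rpow_nonneg (by linarith) _
  refine ⟨C * (1 + A ^ (3 / 2 : ℝ)), 48 * C, max N₀ 1, by nlinarith, by linarith, ?_⟩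
  intro N Y Y₂ hN hYY hY2 hYA hNY d hd hdN F hF
  have hN0 : N₀ ≤ N := le_trans (le_max_left _ _) hN
  have hN1 : 1 ≤ N := le_trans (le_max_right _ _) hN
  have hYpos : 0 ≤ Y * Y₂ := le_trans (Real.rpow_nonneg (by linarith) _) hNY
  have hG0 : 0 ≤ ∏ p ∈ d.primeFactors, gg (12 * C) p (d.factorization p) :=
    Finset.prod_nonneg fun p _ => RTD_gg0 _ (by linarith) _ _
  have hG1 : ∏ p ∈ d.primeFactors, gg (48 * C) p (d.factorization p) =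
      4 ^ d.primeFactors.card * ∏ p ∈ d.primeFactors, gg (12 * C) p (d.factorization p) := by
    rw [← Finset.prod_const, ← Finset.prod_mul_distrib]
    exact Finset.prod_congr rfl fun p _ => RTD_gg C p _
  obtain ⟨B, hB⟩ : ∃ B, B = C * (1 + A ^ (3 / 2 : ℝ)) * (Y * Y₂) *
      ∏ p ∈ d.primeFactors, gg (12 * C) p (d.factorization p) := ⟨_, rfl⟩
  have hB0 : 0 ≤ B := by
    rw [hB]
    refine mul_nonneg (mul_nonneg ?_ hYpos) hG0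
    nlinarith
  have hex : ∀ t ∈ F, ∃ q : Finset ℕ × Finset ℕ, (q.1 ⊆ d.primeFactors ∧ q.2 ⊆ d.primeFactors ∧
      Disjoint q.1 q.2 ∧ (∀ p ∈ q.1, p ≠ 2 ∧ d.factorization p ≤ 2)) ∧
      (∀ p ∈ q.2, p ∣ t.1.1 * t.1.2) ∧ (∀ p ∈ q.1, ¬ p ∣ t.1.1 * t.1.2) ∧
      ∀ p ∈ d.primeFactors, ∃ x ∈ T6.Lp LA LA' LB d q.1 q.2 p t.1, InC (mr q.1 p) (ms d q.1 q.2 p) x t := by
    intro t ht
    obtain ⟨Sr, Sy, h1, h2, h3, h4, h5, h6, h7⟩ := hTSP LA LA' LB hOK d hd t (hF t ht).1.tt (hF t ht).2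
    exact ⟨(Sr, Sy), ⟨h1, h2, h3, h4⟩, h5, h6, h7⟩
  choose! P hP using hex
  have hfib : ∀ q ∈ d.primeFactors.powerset ×ˢ d.primeFactors.powerset,
      ((F.filter (fun t => P t = q)).card : ℝ) ≤ B := by
    rintro ⟨Sr, Sy⟩ -
    by_cases hemp : F.filter (fun t => P t = (Sr, Sy)) = ∅
    · rw [hemp, Finset.card_empty, Nat.cast_zero]
      exact hB0
    obtain ⟨t₀, ht₀⟩ := Finset.nonempty_iff_ne_empty.2 hemp
    rw [Finset.mem_filter] at ht₀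
    obtain ⟨⟨hSr, hSy, hdis, hSr2⟩, -⟩ := hP t₀ ht₀.1
    rw [ht₀.2] at hSr hSy hdis hSr2
    simp only at hSr hSy hdis hSr2
    obtain ⟨h1er, h1es, hcop, hle, hdvd, herSr, hsq, hysy, hypf⟩ := hTNA d Sr Sy hd hSr hSy hdis
    have hTNB' := hTNB C d Sr Sy hC hd hSr hSy hdis hSr2
    have hS := fun q : ℕ × ℕ => hTGM d.primeFactors (mr Sr) (ms d Sr Sy) q.1 q.2
      (fun p => T6.Lp LA LA' LB d Sr Sy p q) (fun p hp => Nat.prime_of_mem_primeFactors hp)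
      (fun p hp => RTD_mm d Sr Sy p (Nat.prime_of_mem_primeFactors hp))
    choose S hS1 hS2 using hS
    have hScard : ∀ q, ((S q).card : ℝ) ≤ ∏ p ∈ d.primeFactors, (mc d Sr Sy p : ℝ) := by
      intro q
      have h := (hS1 q).trans (Finset.prod_le_prod' fun p _ => RTD_card LA LA' LB hOK d Sr Sy p q)
      have h' := (Nat.cast_le (α := ℝ)).2 h
      rw [Nat.cast_prod] at h'
      exact h'
    have hmain := hW N Y Y₂ hN0 hYY hY2 hYA hNY d (∏ p ∈ d.primeFactors, mr Sr p)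
      (∏ p ∈ d.primeFactors, ms d Sr Sy p) (∏ p ∈ Sy, p) hd hdN h1er h1es hcop hle hsq hysy
      (∏ p ∈ d.primeFactors, (mc d Sr Sy p : ℝ)) S hScard (F.filter (fun t => P t = (Sr, Sy))) (by
        intro t ht
        rw [Finset.mem_filter] at ht
        obtain ⟨-, h5, h6, h7⟩ := hP t ht.1
        rw [ht.2] at h5 h6 h7
        simp only at h5 h6 h7
        refine ⟨(hF t ht.1).1, ?_, ?_, ?_⟩
        · exact Finset.prod_primes_dvd _ (fun p hp => (Nat.prime_of_mem_primeFactors (hSy hp)).prime) h5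
        · rw [herSr]
          refine Nat.Coprime.prod_right fun p hp => ?_
          exact ((Nat.Prime.coprime_iff_not_dvd (Nat.prime_of_mem_primeFactors (hSr hp))).2 (h6 p hp)).symm
        · exact hS2 t.1 t rfl h7)
    refine hmain.trans ?_
    rw [hypf]
    have hE1 : (1 : ℝ) ≤ ((∏ p ∈ d.primeFactors, mr Sr p : ℕ) : ℝ) := by exact_mod_cast h1er
    have hS1' : (1 : ℝ) ≤ ((∏ p ∈ d.primeFactors, ms d Sr Sy p : ℕ) : ℝ) := by exact_mod_cast h1es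
    have hESd : ((∏ p ∈ d.primeFactors, mr Sr p : ℕ) : ℝ) * ((∏ p ∈ d.primeFactors, ms d Sr Sy p : ℕ) : ℝ) ≤ d := by
      exact_mod_cast Nat.le_of_dvd hd hdvd
    have hbr := RTD_br A N (Y * Y₂) d _ _ hA hN1 hYpos hYA hE1 hS1' hESd
    have hmc0 : 0 ≤ ∏ p ∈ d.primeFactors, (mc d Sr Sy p : ℝ) :=
      Finset.prod_nonneg fun p _ => Nat.cast_nonneg _
    have hC0 : 0 ≤ C := by linarith
    refine (mul_le_mul_of_nonneg_left hbr (by positivity)).trans ?_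
    rw [hB]
    have e1 : C ^ (Sy.card + 1) * ((∏ p ∈ d.primeFactors, (mc d Sr Sy p : ℝ)) / ((∏ p ∈ Sy, p : ℕ) : ℝ)) * (Y * Y₂) *
        ((1 + A ^ (3 / 2 : ℝ)) / (((∏ p ∈ d.primeFactors, mr Sr p : ℕ) : ℝ) ^ 4 *
          ((∏ p ∈ d.primeFactors, ms d Sr Sy p : ℕ) : ℝ) ^ 3)) =
        C * (1 + A ^ (3 / 2 : ℝ)) * (Y * Y₂) * (C ^ Sy.card * ((∏ p ∈ d.primeFactors, (mc d Sr Sy p : ℝ)) /
          ((∏ p ∈ Sy, p : ℕ) : ℝ)) / (((∏ p ∈ d.primeFactors, mr Sr p : ℕ) : ℝ) ^ 4 *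
          ((∏ p ∈ d.primeFactors, ms d Sr Sy p : ℕ) : ℝ) ^ 3)) := by
      rw [pow_succ]
      ring
    rw [e1]
    refine mul_le_mul_of_nonneg_left ?_ (by positivity)
    push_cast
    exact hTNB'
  have hsum : (F.card : ℝ) = ∑ q ∈ d.primeFactors.powerset ×ˢ d.primeFactors.powerset,
      ((F.filter (fun t => P t = q)).card : ℝ) := by
    rw [← Nat.cast_sum]
    congr 1
    refine Finset.card_eq_sum_card_fiberwise fun t ht => ?_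
    obtain ⟨⟨h1, h2, -, -⟩, -⟩ := hP t ht
    simp only [Finset.coe_product, Set.mem_prod, Finset.mem_coe, Finset.mem_powerset]
    exact ⟨h1, h2⟩
  rw [hsum, hG1]
  refine (Finset.sum_le_sum hfib).trans ?_
  rw [Finset.sum_const, nsmul_eq_mul, Finset.card_product, Finset.card_powerset, hB]
  push_cast
  have h4 : (2 : ℝ) ^ d.primeFactors.card * 2 ^ d.primeFactors.card = 4 ^ d.primeFactors.card := by
    rw [← mul_pow]
    norm_num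
  rw [h4]
  refine le_of_eq ?_
  ring

theorem RTD (hTGM : TGM_stmt) (hTCH : TCH_stmt) (hTSP : TSP_stmt) (hTNA : TNA_stmt) (hTNB : TNB_stmt) (hTEU : TEU_stmt) : RTD_stmt := by
  classical
  intro hWG hLA hLB
  obtain ⟨η, hη, h⟩ := RTD_one hTGM hTCH hTSP hTNA hTNB hWG hLA hLB
  refine ⟨η, hη, fun κ A hκ hA => ?_⟩
  obtain ⟨C, K, N₀, hC, hK, hN⟩ := h κ A hκ hA
  obtain ⟨C₁, hC₁, hsum⟩ := hTEU K hK
  refine ⟨C * C₁, max N₀ 0, ?_, fun N Y Y₂ hN0 hY hY2 hYA hYN F hF => ?_⟩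
  · nlinarith
  have hN1 : N₀ ≤ N := le_trans (le_max_left _ _) hN0
  have hN2 : 0 ≤ N := le_trans (le_max_right _ _) hN0
  have hYY : 0 ≤ Y * Y₂ := le_trans (Real.rpow_nonneg hN2 _) hYN
  have hCYY : 0 ≤ C * (Y * Y₂) := mul_nonneg (le_trans zero_le_one hC) hYY
  have hmem : ∀ x ∈ F, x.1 ∈ Icc 1 ⌊N ^ η⌋₊ := by
    intro x hx
    obtain ⟨h1, h2, _⟩ := hF x hx
    exact mem_Icc.2 ⟨h1, Nat.le_floor h2⟩
  have h1 : F.card = ∑ d ∈ Icc 1 ⌊N ^ η⌋₊, (F.filter fun x => x.1 = d).card :=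
    Finset.card_eq_sum_card_fiberwise hmem
  have h2 : ∀ d ∈ Icc 1 ⌊N ^ η⌋₊, ((F.filter fun x => x.1 = d).card : ℝ) ≤
      C * (Y * Y₂) * ∏ p ∈ d.primeFactors, gg K p (d.factorization p) := by
    intro d hd
    obtain ⟨hd1, hd2⟩ := mem_Icc.1 hd
    have hd3 : (d : ℝ) ≤ N ^ η := le_trans (by exact_mod_cast hd2) (Nat.floor_le (Real.rpow_nonneg hN2 η))
    have h3 : (F.filter fun x => x.1 = d).card = ((F.filter fun x => x.1 = d).image Prod.snd).card := by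
      refine (Finset.card_image_of_injOn ?_).symm
      intro x hx y hy hxy
      have hx1 := (Finset.mem_filter.1 (Finset.mem_coe.1 hx)).2
      have hy1 := (Finset.mem_filter.1 (Finset.mem_coe.1 hy)).2
      exact Prod.ext (hx1.trans hy1.symm) hxy
    rw [h3]
    refine hN N Y Y₂ hN1 hY hY2 hYA hYN d hd1 hd3 _ ?_
    intro t ht
    obtain ⟨x, hx, rfl⟩ := Finset.mem_image.1 ht
    obtain ⟨hxF, hxd⟩ := Finset.mem_filter.1 hx
    obtain ⟨_, _, h5, h6⟩ := hF x hxF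
    rw [hxd] at h5 h6
    exact ⟨h5, h6⟩
  calc (F.card : ℝ) = ∑ d ∈ Icc 1 ⌊N ^ η⌋₊, ((F.filter fun x => x.1 = d).card : ℝ) := by
        rw [h1, Nat.cast_sum]
    _ ≤ ∑ d ∈ Icc 1 ⌊N ^ η⌋₊, C * (Y * Y₂) * ∏ p ∈ d.primeFactors, gg K p (d.factorization p) :=
        Finset.sum_le_sum h2
    _ = C * (Y * Y₂) * ∑ d ∈ Icc 1 ⌊N ^ η⌋₊, ∏ p ∈ d.primeFactors, gg K p (d.factorization p) := by
        rw [Finset.mul_sum]
    _ ≤ C * (Y * Y₂) * C₁ := mul_le_mul_of_nonneg_left (hsum _) hCYY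
    _ = C * C₁ * (Y * Y₂) := by ring

end Pool.Agent.T6R
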